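import Pool.Agent.Helper41.PS.Goals

/-!
# PROJECT PS (MP_74f661_nt), packet M2: the final theorem
-/

set_option autoImplicit false

open Finset

open scoped Classical

namespace Pool.Agent.Helper51.PS.M2

open Pool.Agent.Helper41.PS

theorem uv_le {k : ℕ} (hk : 1 ≤ k) {u v : ℝ} (hu : 0 ≤ u) (hv : 0 ≤ v) :
    u * v ^ (k - 1) ≤ u ^ k + v ^ k := by
  obtain ⟨j, rfl⟩ : ∃ j, k = j + 1 := ⟨k - 1, by omega⟩
  rw [Nat.add_sub_cancel]
  rcases le_total u v with h | h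
  · have h1 : u * v ^ j ≤ v * v ^ j := mul_le_mul_of_nonneg_right h (pow_nonneg hv j)
    have h2 : v * v ^ j = v ^ (j + 1) := by ring
    have h3 := pow_nonneg hu (j + 1)
    linarith
  · have h0 : v ^ j ≤ u ^ j := pow_le_pow_left₀ hv h j
    have h1 : u * v ^ j ≤ u * u ^ j := mul_le_mul_of_nonneg_left h0 hu
    have h2 : u * u ^ j = u ^ (j + 1) := by ring
    have h3 := pow_nonneg hv (j + 1)
    linarith

theorem sumUV (I : Finset ℕ) (P V : ℕ → ℝ) {k : ℕ} (hk : 1 ≤ k) {g Λ B : ℝ} (hg : 0 < g)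
    (hΛ : 0 < Λ) (hP : ∀ h, 0 ≤ P h) (hV : ∀ h, 0 ≤ V h)
    (h1 : ∑ h ∈ I, P h ^ k ≤ B * (g * Λ) ^ k) (h2 : ∑ h ∈ I, V h ^ k ≤ B * g ^ k) :
    ∑ h ∈ I, P h * V h ^ (k - 1) ≤ 2 * B * (Λ * g ^ k) := by
  have hgk : 0 < g ^ k := pow_pos hg k
  have hgl : 0 < (g * Λ) ^ k := pow_pos (mul_pos hg hΛ) k
  have e1 : ∀ h ∈ I, P h * V h ^ (k - 1) ≤
      (Λ * g ^ k) * (P h ^ k / (g * Λ) ^ k + V h ^ k / g ^ k) := by
    intro h _
    have h3 := uv_le hk (div_nonneg (hP h) (mul_pos hg hΛ).le) (div_nonneg (hV h) hg.le)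
    rw [div_pow, div_pow, div_pow] at h3
    have h4 : P h * V h ^ (k - 1) = (Λ * g ^ k) * (P h / (g * Λ) * (V h ^ (k - 1) / g ^ (k - 1))) := by
      obtain ⟨j, rfl⟩ : ∃ j, k = j + 1 := ⟨k - 1, by omega⟩
      rw [Nat.add_sub_cancel]
      field_simp
      ring
    rw [h4]
    exact mul_le_mul_of_nonneg_left h3 (mul_pos hΛ hgk).le
  refine (Finset.sum_le_sum e1).trans ?_
  rw [← Finset.mul_sum, Finset.sum_add_distrib, ← Finset.sum_div, ← Finset.sum_div]
  have h5 : (∑ h ∈ I, P h ^ k) / (g * Λ) ^ k ≤ B := by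
    rw [div_le_iff₀ hgl]
    exact h1
  have h6 : (∑ h ∈ I, V h ^ k) / g ^ k ≤ B := by
    rw [div_le_iff₀ hgk]
    exact h2
  have h7 : 0 < Λ * g ^ k := mul_pos hΛ hgk
  nlinarith

/-- the elementary facts about `gs` -/
theorem gs_facts (m x L : ℕ) (hl : 0 < Real.log x) :
    gs m x L = x / Real.log x ^ 2 * ((L : ℝ) / Real.log x ^ 2) ^ m ∧
    gs (m + 1) x L = gs m x L * ((L : ℝ) / Real.log x ^ 2) ∧
    gs 0 x L = x / Real.log x ^ 2 := by
  have h1 : gs m x L = x / Real.log x ^ 2 * ((L : ℝ) / Real.log x ^ 2) ^ m := by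
    unfold gs
    rw [div_pow, ← pow_mul, div_mul_div_comm, ← pow_add, show 2 + 2 * m = 2 * m + 2 by ring]
  refine ⟨h1, ?_, ?_⟩
  · rw [h1]
    unfold gs
    rw [div_pow, ← pow_mul, div_mul_div_comm, div_mul_div_comm, ← pow_add, ← pow_add,
      show 2 * (m + 1) + 2 = 2 + 2 * m + 2 by ring, pow_succ, mul_assoc]
  · unfold gs
    simp

theorem log_large (B : ℝ) : ∃ x0 : ℕ, ∀ x : ℕ, x0 ≤ x → B ≤ Real.log x := by
  refine ⟨⌈Real.exp B⌉₊, fun x hx => ?_⟩
  have h1 : Real.exp B ≤ x := (Nat.le_ceil _).trans (by exact_mod_cast hx)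
  have h2 := Real.log_le_log (Real.exp_pos B) h1
  rwa [Real.log_exp] at h2

theorem t (hM1 : StmtM1) (hMOM : StmtMOM) (hGD : StmtGD) (hGU : StmtGU) (hPR : StmtPR)
    (hPZ : StmtPZ) : StmtFIN := by
  intro m q A hm hq hA hcop
  obtain ⟨C0, c1, hC0, hc1, hM1'⟩ := hM1 m q A hm hq hA hcop
  have hk : 1 ≤ A.card := hA.card_pos
  obtain ⟨Ca, hCa, xa, hMa⟩ := hMOM (m + 1) A.card
  obtain ⟨Cb, hCb, xb, hMb⟩ := hMOM m A.card
  obtain ⟨Cc, hCc, xc, hMc⟩ := hMOM m (2 * A.card)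
  obtain ⟨Cd, hCd, xd, hMd⟩ := hMOM 0 2
  set k := A.card with hkdef
  set CC : ℝ := max (max Ca Cb) (max Cc Cd) with hCC
  have hCC1 : 1 ≤ CC := hCa.trans ((le_max_left _ _).trans (le_max_left _ _))
  have hCC0 : 0 < CC := by linarith
  refine ⟨C0, fun ε hε => ?_⟩
  have hk' : (0 : ℝ) < k := by exact_mod_cast hk
  -- the parameter `lam`
  set lam : ℝ := min (min 1 ε) (c1 / (8 * k * CC * (m + 1))) with hlam
  have hden : 0 < 8 * (k : ℝ) * CC * (m + 1) := by positivity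
  have hlam0 : 0 < lam := lt_min (lt_min one_pos hε) (div_pos hc1 hden)
  have hlam1 : lam ≤ 1 := (min_le_left _ _).trans (min_le_left _ _)
  have hlame : lam ≤ ε := (min_le_left _ _).trans (min_le_right _ _)
  have hlamc : lam * (8 * k * CC * (m + 1)) ≤ c1 := by
    rw [← le_div_iff₀ hden]
    exact min_le_right _ _
  obtain ⟨x1, hM1x⟩ := hM1' lam hlam0 hlam1
  obtain ⟨x2, hx2⟩ := log_large (max 1 (2 / lam))
  -- the constants
  set Kt : ℝ := 4 * (2 * CC) / (c1 / 2) with hKt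
  have hKt0 : 0 < Kt := by positivity
  set c4 : ℝ := c1 / 2 / 4 * (lam / 2) ^ (m * k) / Kt ^ (k - 1) with hc4
  have hc40 : 0 < c4 := by positivity
  set c2 : ℝ := (c1 / 2) ^ 2 / (4 * (2 * CC)) with hc2
  have hc20 : 0 < c2 := by positivity
  refine ⟨min c2 (min c4 (c4 / Kt)), lt_min hc20 (lt_min hc40 (div_pos hc40 hKt0)),
    max (max (max xa xb) (max xc xd)) (max x1 x2), fun x H hx hH hHx => ?_⟩
  have hxa : xa ≤ x := (le_trans (le_trans (le_max_left _ _) (le_max_left _ _))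
    (le_max_left _ _)).trans hx
  have hxb : xb ≤ x := (le_trans (le_trans (le_max_right _ _) (le_max_left _ _))
    (le_max_left _ _)).trans hx
  have hxc : xc ≤ x := (le_trans (le_trans (le_max_left _ _) (le_max_right _ _))
    (le_max_left _ _)).trans hx
  have hxd : xd ≤ x := (le_trans (le_trans (le_max_right _ _) (le_max_right _ _))
    (le_max_left _ _)).trans hx
  have hx1 : x1 ≤ x := (le_trans (le_max_left _ _) (le_max_right _ _)).trans hx
  have hx2' : x2 ≤ x := (le_trans (le_max_right _ _) (le_max_right _ _)).trans hx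
  have hl := hx2 x hx2'
  have hl1 : 1 ≤ Real.log x := (le_max_left _ _).trans hl
  have hl2 : 2 / lam ≤ Real.log x := (le_max_right _ _).trans hl
  have hl0 : 0 < Real.log x := by linarith
  have hlsq : Real.log x ≤ Real.log x ^ 2 := by nlinarith
  have hlam2 : 2 ≤ lam * Real.log x ^ 2 := by
    rw [div_le_iff₀ hlam0] at hl2
    nlinarith
  have hx0 : (0 : ℝ) < x := by
    rcases Nat.eq_zero_or_pos x with h | h
    · rw [h] at hl0
      simp at hl0
    · exact_mod_cast h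
  set L : ℕ := ⌊lam * Real.log x ^ 2⌋₊ with hL
  have hLle : (L : ℝ) ≤ lam * Real.log x ^ 2 := Nat.floor_le (by linarith)
  have hLge : lam * Real.log x ^ 2 < L + 1 := Nat.lt_floor_add_one _
  have hL1 : 1 ≤ L := by
    have : (1 : ℝ) < L + 1 := by linarith
    have : (0 : ℝ) < L := by linarith
    exact_mod_cast this
  -- `L ≤ H`
  have hLH : (L : ℝ) ≤ H := by
    have h1 : Real.log x ^ 2 ≤ Real.log x ^ ((m + 1) * k) :=
      pow_le_pow_right₀ hl1 (by nlinarith)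
    have h2 : (L : ℝ) ≤ Real.log x ^ 2 := hLle.trans (by nlinarith [sq_nonneg (Real.log x)])
    have h3 : Real.log x ^ ((m + 1) * k) ≤ C0 * Real.log x ^ ((m + 1) * k) :=
      le_mul_of_one_le_left (by positivity) hC0
    linarith
  have hH0 : (0 : ℝ) < H := by
    have : (1 : ℝ) ≤ L := by exact_mod_cast hL1
    linarith
  obtain ⟨g1, g2, g3⟩ := gs_facts m x L hl0
  set τ : ℝ := x / Real.log x ^ 2 with hτ
  set Λ : ℝ := (L : ℝ) / Real.log x ^ 2 with hΛ
  have hsq0 : 0 < Real.log x ^ 2 := by positivity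
  have hτ0 : 0 < τ := div_pos hx0 hsq0
  have hΛle : Λ ≤ lam := by
    rw [hΛ, div_le_iff₀ hsq0]
    exact hLle
  have hΛge : lam / 2 ≤ Λ := by
    rw [hΛ, le_div_iff₀ hsq0]
    linarith
  have hΛ0 : 0 < Λ := by linarith
  set g : ℝ := gs m x L with hg
  have hg0 : 0 < g := by
    rw [g1]
    positivity
  -- the functions
  have hU0 : ∀ h, 0 ≤ UU (m + 1) x L h := fun h => (hGU (m + 1) q x L 0 h 0).2.2.2.2.1
  have hV0 : ∀ h, 0 ≤ UU m x L h := fun h => (hGU m q x L 0 h 0).2.2.2.2.1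
  have ht0 : ∀ h, 0 ≤ UU 0 x L h := fun h => (hGU 0 q x L 0 h 0).2.2.2.2.1
  have hS0 : ∀ a h, 0 ≤ SS m q x L a h := fun a h => (hGU m q x L a h 0).2.2.2.1
  let U : ℕ → ℝ := fun h => ((m : ℝ) + 1) * UU (m + 1) x L h
  have hU0' : ∀ h, 0 ≤ U h := fun h => mul_nonneg (by positivity) (hU0 h)
  let X : ℕ → ℝ := fun h => ∏ a ∈ A, max 0 (SS m q x L a h - U h)
  let I : Finset ℕ := (Ioo L H).filter (fun h => q ∣ h)
  have hI1 : ∀ h ∈ I, L < h ∧ h < H ∧ q ∣ h := fun h hh => by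
    rw [mem_filter, mem_Ioo] at hh
    exact ⟨hh.1.1, hh.1.2, hh.2⟩
  have hIsub : I ⊆ Icc 1 H := fun h hh => by
    obtain ⟨a1, a2, -⟩ := hI1 h hh
    rw [mem_Icc]
    omega
  have hIcard : (I.card : ℝ) ≤ H := by
    have := card_le_card hIsub
    rw [Nat.card_Icc] at this
    have h2 : I.card ≤ H := by omega
    exact_mod_cast h2
  -- moments
  have sub_sum : ∀ f : ℕ → ℝ, (∀ h, 0 ≤ f h) → ∑ h ∈ I, f h ≤ ∑ h ∈ Icc 1 H, f h :=
    fun f hf => sum_le_sum_of_subset_of_nonneg hIsub fun h _ _ => hf h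
  have hHL : (H : ℝ) + L ≤ 2 * H := by linarith
  have mom : ∀ (m' J : ℕ) (C' : ℝ), C' ≤ CC → 0 ≤ C' → 0 ≤ gs m' x L →
      (∀ h, 0 ≤ UU m' x L h) →
      ∑ h ∈ Icc 1 H, UU m' x L h ^ J ≤ C' * ((H : ℝ) + L) * gs m' x L ^ J →
      ∑ h ∈ I, UU m' x L h ^ J ≤ (2 * CC * H) * gs m' x L ^ J := by
    intro m' J C' hC' hC'0 hgs hu hs
    refine (sub_sum _ fun h => pow_nonneg (hu h) J).trans (hs.trans ?_)
    refine mul_le_mul_of_nonneg_right ?_ (pow_nonneg hgs J)
    calc C' * ((H : ℝ) + L) ≤ CC * (2 * H) :=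
          mul_le_mul hC' hHL (by positivity) hCC0.le
      _ = 2 * CC * H := by ring
  have hgs1 : 0 ≤ gs (m + 1) x L := by
    rw [g2]
    positivity
  have hgs0 : 0 ≤ gs 0 x L := by
    rw [g3]
    positivity
  have ma := mom (m + 1) k Ca ((le_max_left _ _).trans (le_max_left _ _)) (by linarith) hgs1 hU0
    (hMa x L H hxa hL1)
  have mb := mom m k Cb ((le_max_right _ _).trans (le_max_left _ _)) (by linarith) hg0.le hV0
    (hMb x L H hxb hL1)
  have mc := mom m (2 * k) Cc ((le_max_left _ _).trans (le_max_right _ _)) (by linarith) hg0.le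
    hV0 (hMc x L H hxc hL1)
  have md := mom 0 2 Cd ((le_max_right _ _).trans (le_max_right _ _)) (by linarith) hgs0 ht0
    (hMd x L H hxd hL1)
  rw [g2] at ma
  rw [g3] at md
  have hUV := sumUV I (fun h => UU (m + 1) x L h) (fun h => UU m x L h) hk hg0 hΛ0 hU0 hV0 ma mb
  -- (1) the lower bound for the sum of `X`
  have hXlow : c1 / 2 * (H * g ^ k) ≤ ∑ h ∈ I, X h := by
    have h1 := hM1x x H hx1 hH hHx
    have h2 : ∑ h ∈ Ioo L H, ∏ a ∈ A, SS m q x L a h = ∑ h ∈ I, ∏ a ∈ A, SS m q x L a h := by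
      rw [sum_filter]
      refine sum_congr rfl fun h _ => ?_
      split_ifs with hqh
      · rfl
      · obtain ⟨a, ha⟩ := hA
        exact prod_eq_zero ha ((hGU m q x L a h 0).2.2.1 hqh)
    have h3 : ∀ h ∈ I, ∏ a ∈ A, SS m q x L a h - (k : ℝ) * (U h * UU m x L h ^ (k - 1)) ≤ X h :=
      fun h hh => hPR A (fun a => SS m q x L a h) (U h) (UU m x L h) (hU0' h) fun a _ =>
        ⟨hS0 a h, (hGU m q x L a h 0).1 (hI1 h hh).1⟩
    have h4 := sum_le_sum h3
    rw [sum_sub_distrib, ← h2, ← mul_sum] at h4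
    have h5 : ∑ h ∈ I, U h * UU m x L h ^ (k - 1) ≤ ((m : ℝ) + 1) * (2 * (2 * CC * H) * (Λ * g ^ k)) := by
      have e : ∑ h ∈ I, U h * UU m x L h ^ (k - 1) =
          ((m : ℝ) + 1) * ∑ h ∈ I, UU (m + 1) x L h * UU m x L h ^ (k - 1) := by
        rw [mul_sum]
        exact sum_congr rfl fun h _ => by
          show ((m : ℝ) + 1) * UU (m + 1) x L h * _ = _
          ring
      rw [e]
      exact mul_le_mul_of_nonneg_left hUV (by positivity)
    have h6 : (k : ℝ) * (((m : ℝ) + 1) * (2 * (2 * CC * H) * (Λ * g ^ k))) ≤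
        c1 / 2 * (H * g ^ k) := by
      have e : (k : ℝ) * (((m : ℝ) + 1) * (2 * (2 * CC * H) * (Λ * g ^ k))) =
          (Λ * (8 * k * CC * (m + 1))) / 2 * (H * g ^ k) := by ring
      rw [e]
      refine mul_le_mul_of_nonneg_right ?_ (by positivity)
      have : Λ * (8 * k * CC * (m + 1)) ≤ lam * (8 * k * CC * (m + 1)) :=
        mul_le_mul_of_nonneg_right hΛle hden.le
      linarith
    have h7 := mul_le_mul_of_nonneg_left h5 hk'.le
    linarith
  -- (2) second moments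
  have hX0 : ∀ h, 0 ≤ X h := fun h => prod_nonneg fun a _ => le_max_left _ _
  have hXle : ∀ h ∈ I, X h ≤ UU m x L h ^ k := by
    intro h hh
    refine (prod_le_prod (fun a _ => le_max_left _ _) fun a _ => ?_).trans
      (le_of_eq (prod_const (UU m x L h)))
    have := (hGU m q x L a h 0).1 (hI1 h hh).1
    exact max_le (hV0 h) (by linarith [hU0' h])
  have hX2 : ∑ h ∈ I, X h ^ 2 ≤ 2 * CC * (H * (g ^ k) ^ 2) := by
    have h1 : ∑ h ∈ I, X h ^ 2 ≤ ∑ h ∈ I, UU m x L h ^ (2 * k) := by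
      refine sum_le_sum fun h hh => ?_
      rw [mul_comm 2 k, pow_mul]
      exact pow_le_pow_left₀ (hX0 h) (hXle h hh) 2
    refine h1.trans (mc.trans (le_of_eq ?_))
    rw [mul_comm 2 k, pow_mul]
    ring
  have ht2 : ∑ h ∈ I, UU 0 x L h ^ 2 ≤ 2 * CC * (H * τ ^ 2) :=
    md.trans (le_of_eq (by ring))
  -- (3) Paley-Zygmund
  have hpz := hPZ I X (fun h => UU 0 x L h) H (g ^ k) τ (c1 / 2) (2 * CC) hH0 (pow_pos hg0 k) hτ0
    (by positivity) (by positivity) (fun h _ => ⟨hX0 h, ht0 h⟩) hIcard hXlow hX2 ht2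
  have hfin : I.filter (fun i => c1 / 2 / 4 * g ^ k ≤ X i ∧ UU 0 x L i ≤ Kt * τ) ⊆
      (Icc 1 H).filter (fun h => q ∣ h ∧ ∀ a ∈ A,
        min c2 (min c4 (c4 / Kt)) * (x / Real.log x ^ 2) ≤ NS m q (ε * Real.log x ^ 2) a h x ∧
        min c2 (min c4 (c4 / Kt)) * (((Icc 1 x).filter (fun p => T h p)).card : ℝ)
          ≤ NS m q (ε * Real.log x ^ 2) a h x) := by
    intro h hh
    rw [mem_filter] at hh
    obtain ⟨hhI, hXh, hth⟩ := hh
    obtain ⟨hLh, hhH, hqh⟩ := hI1 h hhI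
    rw [mem_filter]
    refine ⟨hIsub hhI, hqh, fun a ha => ?_⟩
    have hLR : (L : ℝ) ≤ ε * Real.log x ^ 2 :=
      hLle.trans (mul_le_mul_of_nonneg_right hlame hsq0.le)
    have hNS0 : ∀ b, 0 ≤ NS m q (ε * Real.log x ^ 2) b h x := fun b => Nat.cast_nonneg _
    have hZ : ∀ b, max 0 (SS m q x L b h - U h) ≤ NS m q (ε * Real.log x ^ 2) b h x := by
      intro b
      have := hGD m q x L b h (ε * Real.log x ^ 2) hLh hLR
      exact max_le (hNS0 b) (by show SS m q x L b h - ((m : ℝ) + 1) * UU (m + 1) x L h ≤ _; linarith)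
    have hcnt : ∀ b, NS m q (ε * Real.log x ^ 2) b h x ≤ UU 0 x L h := fun b =>
      ((hGU m q x L b h (ε * Real.log x ^ 2)).2.1 (by omega)).2
    have hcnt' : UU 0 x L h = (((Icc 1 x).filter (fun p => T h p)).card : ℝ) :=
      ((hGU m q x L a h (ε * Real.log x ^ 2)).2.1 (by omega)).1
    have hprod : X h ≤ NS m q (ε * Real.log x ^ 2) a h x * (Kt * τ) ^ (k - 1) := by
      show ∏ b ∈ A, max 0 (SS m q x L b h - U h) ≤ _
      rw [← mul_prod_erase A _ ha]
      refine mul_le_mul (hZ a) ?_ (prod_nonneg fun b _ => le_max_left _ _) (hNS0 a)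
      refine (prod_le_prod (fun b _ => le_max_left _ _) fun b _ =>
        (hZ b).trans ((hcnt b).trans hth)).trans (le_of_eq ?_)
      rw [prod_const, card_erase_of_mem ha]
    have hKτ : 0 < Kt * τ := mul_pos hKt0 hτ0
    have hmain : c4 * τ ≤ NS m q (ε * Real.log x ^ 2) a h x := by
      have h1 : c1 / 2 / 4 * g ^ k ≤ NS m q (ε * Real.log x ^ 2) a h x * (Kt * τ) ^ (k - 1) :=
        hXh.trans hprod
      have h2 : c4 * τ * (Kt * τ) ^ (k - 1) ≤ c1 / 2 / 4 * g ^ k := by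
        have e1 : c4 * τ * (Kt * τ) ^ (k - 1) = c1 / 2 / 4 * ((lam / 2) ^ (m * k) * τ ^ k) := by
          obtain ⟨j, hj⟩ : ∃ j, k = j + 1 := ⟨k - 1, by omega⟩
          rw [hc4, hj, Nat.add_sub_cancel, mul_pow]
          field_simp
          ring
        have e2 : g ^ k = Λ ^ (m * k) * τ ^ k := by
          rw [g1, mul_pow, ← pow_mul]
          ring
        rw [e1, e2]
        refine mul_le_mul_of_nonneg_left (mul_le_mul_of_nonneg_right
          (pow_le_pow_left₀ (by positivity) hΛge _) (by positivity)) (by positivity)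
      exact le_of_mul_le_mul_right (h2.trans h1) (pow_pos hKτ (k - 1))
    constructor
    · refine le_trans (mul_le_mul_of_nonneg_right ((min_le_right _ _).trans (min_le_left _ _))
        hτ0.le) hmain
    · rw [← hcnt']
      calc min c2 (min c4 (c4 / Kt)) * UU 0 x L h ≤ c4 / Kt * (Kt * τ) :=
            mul_le_mul ((min_le_right _ _).trans (min_le_right _ _)) hth (ht0 h) (by positivity)
        _ = c4 * τ := by field_simp
        _ ≤ _ := hmain
  have hcard := card_le_card hfin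
  calc min c2 (min c4 (c4 / Kt)) * (H : ℝ) ≤ c2 * H :=
        mul_le_mul_of_nonneg_right (min_le_left _ _) hH0.le
    _ ≤ _ := hpz
    _ ≤ _ := by exact_mod_cast hcard

end Pool.Agent.Helper51.PS.M2
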